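import Pool.Agent.R597.RI.Defs

/-!
# Injectivity of regulators and residues
-/

set_option autoImplicit false

open CategoryTheory CategoryTheory.Limits AlgebraicGeometry MvPolynomial
open Pool.Agent.R904.CU Pool.Agent.R597.RD

namespace Pool.Agent.R597.RI

section

variable {K : Type} [CommRing K] {R : Reg K} (hR : IsReg R)

theorem pull_id {T : Coh K} (hT : T.IsFunctorial) (X : Sch K) (i j : ℤ) (x : T.G X i j) :
    T.pull (𝟙 X) i j x = x := by
  rw [hT.id]
  rfl

theorem pull_comp {T : Coh K} (hT : T.IsFunctorial) {X Y Z : Sch K} (f : Y ⟶ X) (g : Z ⟶ Y)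
    (i j : ℤ) (x : T.G X i j) : T.pull (g ≫ f) i j x = T.pull g i j (T.pull f i j x) := by
  rw [hT.comp]
  rfl

include hR

theorem IsReg.reg_pull {X Y : Sch K} (f : Y ⟶ X) (i j : ℤ) (x : R.M.G X i j) :
    R.reg Y i j (R.M.pull f i j x) = R.H.pull f i j (R.reg X i j x) :=
  DFunLike.congr_fun (hR.nat f i j) x

theorem inj_of_iso {X Y : Sch K} (e : X ≅ Y) {i j : ℤ} (h : R.Inj X i j) : R.Inj Y i j := by
  intro x y hxy
  have h1 : R.M.pull e.hom i j x = R.M.pull e.hom i j y := by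
    apply h
    rw [hR.reg_pull, hR.reg_pull, hxy]
  have h2 := congrArg (R.M.pull e.inv i j) h1
  rwa [← pull_comp hR.functM, ← pull_comp hR.functM, e.inv_hom_id, pull_id hR.functM,
    pull_id hR.functM] at h2

theorem inj_of_bundle {n d : ℕ} {X E : Sch K} (π : E ⟶ X)
    (hX : IsSm d X) (hπ : IsAffineBundle n π.left) {i j : ℤ} (h : R.Inj E i j) :
    R.Inj X i j := by
  intro x y hxy
  apply (hR.bundleM n d π hX hπ i j).1
  apply h
  rw [hR.reg_pull, hR.reg_pull, hxy]

theorem inj_to_bundle {n d : ℕ} {X E : Sch K} (π : E ⟶ X)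
    (hX : IsSm d X) (hπ : IsAffineBundle n π.left) {i j : ℤ} (h : R.Inj X i j) :
    R.Inj E i j := by
  intro x y hxy
  obtain ⟨x, rfl⟩ := (hR.bundleM n d π hX hπ i j).2 x
  obtain ⟨y, rfl⟩ := (hR.bundleM n d π hX hπ i j).2 y
  rw [hR.reg_pull, hR.reg_pull] at hxy
  rw [h ((hR.bundleH n d π hX hπ i j).1 hxy)]

/-- **The residue onto a closed subscheme of a scheme whose cohomology vanishes.** -/
theorem inj_residue {c d : ℕ} {X Z U : Sch K} (z : Z ⟶ X) (u : U ⟶ X) (hX : IsSm (d + c) X)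
    (hZ : IsSm d Z) (hz : IsPair z u) (hM : ∀ i j : ℤ, 2 ≤ i → Subsingleton (R.M.G X i j))
    (hH : ∀ i j : ℤ, 2 ≤ i → Subsingleton (R.H.G X i j)) {i j p q : ℤ} (hp : p = i + 2 * c - 1)
    (hq : q = j + c) (h2 : 2 ≤ p) : R.Inj U p q ↔ R.Inj Z i j := by
  obtain ⟨resM, resH, ⟨pM, eM1, eM2, eM3⟩, ⟨pH, eH1, eH2, eH3⟩, hreg⟩ :=
    hR.gysin c d z u hX hZ hz i j p q hp hq
  have hreg' : ∀ x, R.reg Z i j (resM x) = resH (R.reg U p q x) := DFunLike.congr_fun hreg
  have z1 := hM p q h2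
  have z2 := hM (p + 1) q (by omega)
  have z3 := hH p q h2
  constructor
  · intro h
    unfold Reg.Inj
    rw [injective_iff_map_eq_zero]
    intro x hx
    obtain ⟨x, rfl⟩ := (eM2 x).1 (Subsingleton.elim _ _)
    rw [hreg'] at hx
    obtain ⟨y, hy⟩ := (eH1 _).1 hx
    rw [Subsingleton.elim y 0, map_zero] at hy
    have h3 := (injective_iff_map_eq_zero _).1 h x hy.symm
    rw [h3, map_zero]
  · intro h
    unfold Reg.Inj
    rw [injective_iff_map_eq_zero]
    intro x hx
    have h3 : R.reg Z i j (resM x) = 0 := by rw [hreg', hx, map_zero]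
    have h4 := (injective_iff_map_eq_zero _).1 h _ h3
    obtain ⟨y, hy⟩ := (eM1 _).1 h4
    rw [← hy, Subsingleton.elim y 0, map_zero]

/-- **Injectivity descends along the residue if the closed subscheme avoids a section.** -/
theorem inj_of_section {c d e n : ℕ} {X Z U S : Sch K} (z : Z ⟶ X)
    (u : U ⟶ X) (hX : IsSm (d + c) X) (hZ : IsSm d Z)
    (hz : IsClosedImmersion z.left) (hu : IsOpenImmersion u.left)
    (hr : Set.range z.left = (Set.range u.left)ᶜ) (hS : IsSm e S) (p : X ⟶ S)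
    (hp : IsAffineBundle n p.left) (s : S ⟶ U) (hs : s ≫ u ≫ p = 𝟙 S) {i j : ℤ}
    (h : R.Inj U (i + 2 * c - 1) (j + c)) : R.Inj Z i j := by
  obtain ⟨resM, resH, ⟨pM, eM1, eM2, eM3⟩, ⟨pH, eH1, eH2, eH3⟩, hreg⟩ :=
    hR.gysin c d z u hX hZ ⟨hz, hu, hr⟩ i j (i + 2 * c - 1) (j + c) rfl rfl
  have hreg' : ∀ x, R.reg Z i j (resM x) = resH (R.reg U (i + 2 * c - 1) (j + c) x) :=
    DFunLike.congr_fun hreg
  have hsec : ∀ {T : Coh K} (hT : T.IsFunctorial) (a b : ℤ) (w : T.G S a b),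
      T.pull s a b (T.pull u a b (T.pull p a b w)) = w := by
    intro T hT a b w
    rw [← pull_comp hT, ← pull_comp hT, Category.assoc, hs, pull_id hT]
  have hpush : ∀ y, pM y = 0 := by
    intro y
    obtain ⟨w, hw⟩ := (hR.bundleM n e p hS hp (i + 2 * c - 1 + 1) (j + c)).2 (pM y)
    have h1 : R.M.pull u (i + 2 * c - 1 + 1) (j + c) (pM y) = 0 := (eM3 _).2 ⟨y, rfl⟩
    have h2 := hsec hR.functM _ _ w
    rw [hw, h1, map_zero] at h2
    rw [← hw, ← h2, map_zero]
  unfold Reg.Inj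
  rw [injective_iff_map_eq_zero]
  intro x hx
  obtain ⟨x', rfl⟩ := (eM2 x).1 (hpush x)
  -- correct the lift
  let t := R.M.pull s _ _ x'
  let x'' := x' - R.M.pull u _ _ (R.M.pull p _ _ t)
  have h1 : resM x'' = resM x' := by
    change resM (x' - R.M.pull u _ _ (R.M.pull p _ _ t)) = resM x'
    rw [map_sub, (eM1 _).2 ⟨_, rfl⟩, sub_zero]
  have h2 : R.M.pull s _ _ x'' = 0 := by
    change R.M.pull s _ _ (x' - R.M.pull u _ _ (R.M.pull p _ _ t)) = 0
    rw [map_sub, hsec hR.functM, sub_self]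
  have h3 : resH (R.reg U (i + 2 * c - 1) (j + c) x'') = 0 := by
    rw [← hreg', h1, hx]
  obtain ⟨y, hy⟩ := (eH1 _).1 h3
  obtain ⟨w, rfl⟩ := (hR.bundleH n e p hS hp (i + 2 * c - 1) (j + c)).2 y
  have h4 : w = 0 := by
    rw [← hsec hR.functH _ _ w, hy, ← hR.reg_pull, h2, map_zero]
  have h5 : R.reg U (i + 2 * c - 1) (j + c) x'' = 0 := by
    rw [← hy, h4, map_zero, map_zero]
  have h6 := (injective_iff_map_eq_zero _).1 h _ h5
  rw [← h1, h6, map_zero]

end

section

variable {K : Type} [CommRing K] [IsNoetherianRing K] {R : Reg K} (hR : IsReg R)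

include hR

/-- **The residue onto a closed subscheme `V(h)` of `Spec B[τ]` which avoids a section.** -/
theorem inj_of_ring1 {B : Type} [CommRing B] [Algebra K B] [Algebra.FiniteType K B] {e : ℕ}
    (hB : IsSm e (SpecO K B)) {τ κ : Type} [Fintype τ] [Fintype κ]
    (h : κ → MvPolynomial τ B) (c d : ℕ) (hcd : Fintype.card τ + e = d + c)
    (hZ : IsSm d (SpecO K (MvPolynomial τ B ⧸ Ideal.span (Set.range h))))
    (b : τ → B) (w : κ → B) (hw : ∑ k, w k * eval b (h k) = 1) {i j : ℤ}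
    (hD : R.Inj (SpecO K (Ring1 h)) (i + 2 * c - 1) (j + c)) :
    R.Inj (SpecO K (MvPolynomial τ B ⧸ Ideal.span (Set.range h))) i j := by
  let X : Sch K := SpecO K (MvPolynomial τ B)
  have hX : IsSm (d + c) X := by
    rw [← hcd]
    exact sm_poly B hB τ
  let z : SpecO K (MvPolynomial τ B ⧸ Ideal.span (Set.range h)) ⟶ X :=
    specO (Ideal.Quotient.mkₐ K (Ideal.span (Set.range h)))
  have hz : z.left = closedZ h := rfl
  let U : Sch K := Over.mk ((openU h).ι ≫ X.hom)
  let u : U ⟶ X := Over.homMk (openU h).ι rfl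
  have hu : u.left = (openU h).ι := rfl
  let p : X ⟶ SpecO K B := specO (IsScalarTower.toAlgHom K B (MvPolynomial τ B))
  have hp : p.left = Spec.map (CommRingCat.ofHom (C : B →+* MvPolynomial τ B)) := rfl
  let ev : MvPolynomial τ B →ₐ[K] B := (aeval b : MvPolynomial τ B →ₐ[B] B).restrictScalars K
  let s0 : SpecO K B ⟶ X := specO ev
  have hs0 : s0 ≫ p = 𝟙 _ := by
    apply Over.OverMorphism.ext
    change Spec.map _ ≫ Spec.map _ = 𝟙 _
    rw [← Spec.map_comp, ← CommRingCat.ofHom_comp]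
    have h1 : (ev.toRingHom.comp (IsScalarTower.toAlgHom K B (MvPolynomial τ B)).toRingHom) =
        RingHom.id B := by
      ext x
      change aeval b (C x) = x
      rw [aeval_C]
      rfl
    rw [h1]
    exact Spec.map_id _
  have hrange : Set.range s0.left ⊆ Set.range (openU h).ι := by
    rintro _ ⟨q, rfl⟩
    rw [Scheme.Opens.range_ι]
    by_contra hcon
    have h1 : ∀ k, eval b (h k) ∈ q.asIdeal := by
      intro k
      by_contra h2
      apply hcon
      exact ⟨k, h2⟩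
    apply q.2.ne_top
    rw [Ideal.eq_top_iff_one, ← hw]
    exact Ideal.sum_mem _ fun k _ => Ideal.mul_mem_left _ _ (h1 k)
  let s1 : (SpecO K B).left ⟶ (openU h : Scheme.{0}) := IsOpenImmersion.lift (openU h).ι s0.left hrange
  have hs1 : s1 ≫ (openU h).ι = s0.left := IsOpenImmersion.lift_fac _ _ _
  let s : SpecO K B ⟶ U := Over.homMk s1 (by
    change s1 ≫ (openU h).ι ≫ X.hom = _
    rw [← Category.assoc, hs1]
    exact Over.w s0)
  have hsu : s ≫ u = s0 := by
    apply Over.OverMorphism.ext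
    exact hs1
  have hU : IsSm (d + c) U := sm_open _ hX _
  -- the bundle over `U`
  let W : Sch K := SpecO K (Ring1 h)
  let π : W ⟶ U := Over.homMk (proj h) (by
    change proj h ≫ (openU h).ι ≫ X.hom = _
    rw [← Category.assoc, proj_ι]
    change Spec.map _ ≫ Spec.map _ = Spec.map _
    rw [← Spec.map_comp, ← CommRingCat.ofHom_comp])
  have hUd : R.Inj U (i + 2 * c - 1) (j + c) :=
    inj_of_bundle hR π hU (isAffineBundle_proj h) hD
  refine inj_of_section hR z u hX hZ (by rw [hz]; infer_instance) (by rw [hu]; infer_instance)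
    (by rw [hz, hu]; exact range_closedZ h) hB p (by rw [hp]; exact isAffineBundle_C B τ) s ?_ hUd
  rw [← Category.assoc, hsu, hs0]

end

end Pool.Agent.R597.RI
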