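import Pool.Agent.R597.RI.Final
import Pool.Agent.R597.LA.Main

/-!
# Injectivity for a class of smooth varieties and for smooth affine cubic hypersurfaces
-/

set_option autoImplicit false

open CategoryTheory CategoryTheory.Limits AlgebraicGeometry MvPolynomial
open Pool.Agent.R904.CU Pool.Agent.R597.RD

namespace Pool.Agent.R597.RI

open Pool.Agent.R597.LA (isAffineBundle_space isAffineBundle_iso toPoint sm_point)

section

variable {K : Type} [Field K] {R : Reg K} (hR : IsReg R)

theorem space {T : Coh K} (hb : HasBundles T) (hp : PointVanishes T) (σ : Type) [Fintype σ]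
    (i j : ℤ) (h : 2 ≤ i) : Subsingleton (T.G (SpecO K (MvPolynomial σ K)) i j) := by
  have h1 := (hb (Fintype.card σ) 0 (toPoint K (MvPolynomial σ K)) sm_point
    (isAffineBundle_space σ) i j).surjective
  have h2 := hp i j h
  exact h1.subsingleton

include hR

/-- **Injectivity for `V(g)` and for the cubic hypersurface.** -/
theorem inj_cubic {σ κ : Type} [Fintype σ] [Fintype κ] (g : κ → MvPolynomial σ K) {c d : ℕ}
    (hcard : Fintype.card σ = d + c) (hZ : IsSm d (vScheme g)) {i j p q : ℤ}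
    (hp : p = i + 2 * c - 1) (hq : q = j + c) (h2 : 2 ≤ p) :
    R.Inj (Over.mk (hyp (bigPoly g))) p q ↔ R.Inj (vScheme g) i j := by
  let X : Sch K := SpecO K (MvPolynomial σ K)
  have hX : IsSm (d + c) X := by
    have h := sm_poly K (sm_self (K := K)) σ
    rwa [add_zero, hcard] at h
  let z : vScheme g ⟶ X := specO (Ideal.Quotient.mkₐ K (Ideal.span (Set.range g)))
  have hz1 : IsClosedImmersion (closedZ g) := inferInstance
  have hz2 : Set.range (closedZ g) = (Set.range (openU g).ι)ᶜ := range_closedZ g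
  let U : Sch K := Over.mk ((openU g).ι ≫ X.hom)
  let u : U ⟶ X := Over.homMk (openU g).ι rfl
  have hu1 : IsOpenImmersion (openU g).ι := inferInstance
  have hU : IsSm (d + c) U := sm_open _ hX _
  let W : Sch K := SpecO K (Ring1 g)
  let π : W ⟶ U := Over.homMk (proj g) (by
    change proj g ≫ (openU g).ι ≫ X.hom = _
    rw [← Category.assoc, proj_ι]
    change Spec.map _ ≫ Spec.map _ = Spec.map _
    rw [← Spec.map_comp, ← CommRingCat.ofHom_comp])
  let iso : W ≅ Over.mk (hyp (bigPoly g)) := Over.isoMk (hypIso g) (hypIso_hom g)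
  have key : R.Inj U p q ↔ R.Inj (vScheme g) i j :=
    inj_residue hR z u hX hZ ⟨hz1, hu1, hz2⟩ (space hR.bundleM hR.pointM σ)
      (space hR.bundleH hR.pointH σ) hp hq h2
  rw [← key]
  constructor
  · intro h
    exact inj_of_bundle hR π hU (isAffineBundle_proj g) (inj_of_iso hR iso.symm h)
  · intro h
    exact inj_of_iso hR iso (inj_to_bundle hR π hU (isAffineBundle_proj g) h)

/-- **Injectivity for a class of smooth schemes on a diagonal.** -/
theorem class_iff_cubic (hJ : Jouanolou K) {C : Sch K → Prop} (hC : ∀ X, C X → ∃ d, IsSm d X)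
    {D : Set ℤ} (hD : ∀ B : ℤ, ∃ q ∈ D, B ≤ q) (m : ℤ) :
    R.InjFor C m ↔ R.CubicInjFor C D (m + 1) := by
  constructor
  · intro h σ κ _ _ g c d _ hcard _ hZ hX p q h2 _ hpq
    obtain ⟨X, hX, n, π, hπ⟩ := hX
    obtain ⟨e, he⟩ := hC X hX
    have h3 := inj_to_bundle hR π he hπ (h X hX (p - 2 * c + 1) (q - c) (by omega))
    exact (inj_cubic hR g hcard hZ (by omega) (by omega) h2).2 h3
  · intro h X' hCX i j hm
    obtain ⟨d, hX⟩ := hC X' hCX
    obtain ⟨X, ⟨⟨⟩⟩, f⟩ := X'
    change X ⟶ Spec (.of K) at f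
    obtain ⟨n, E, π, hE, hπ⟩ := hJ d X f hX
    have hs1 := smooth_bundle π hπ
    have hs2 := hX.2
    have hs2' : SmoothOfRelativeDimension d f := hs2
    have hs : SmoothOfRelativeDimension (n + d) (π ≫ f) := inferInstance
    have hsm : Smooth (π ≫ f) := SmoothOfRelativeDimension.smooth (n + d) _
    have hEs : IsSm (n + d) (Over.mk (π ≫ f)) :=
      ⟨⟨(inferInstance : LocallyOfFiniteType (π ≫ f)), (inferInstance : QuasiCompact (π ≫ f)),
        (inferInstance : IsSeparated (π ≫ f))⟩, hs⟩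
    let π' : Over.mk (π ≫ f) ⟶ Over.mk f := Over.homMk π rfl
    obtain ⟨φ, hφ⟩ := Spec.map_surjective (E.isoSpec.inv ≫ π ≫ f)
    have hft2 : LocallyOfFiniteType (Spec.map φ) := by
      rw [hφ]
      infer_instance
    have hφ2 : φ.hom.FiniteType := HasRingHomProperty.Spec_iff.mp hft2
    algebraize [φ.hom]
    let iso1 : Over.mk (π ≫ f) ≅ SpecO K Γ(E, ⊤) := Over.isoMk E.isoSpec (by
      have h3 : Spec.map (CommRingCat.ofHom (algebraMap K Γ(E, ⊤))) = E.isoSpec.inv ≫ π ≫ f := hφ
      change E.isoSpec.hom ≫ Spec.map (CommRingCat.ofHom (algebraMap K Γ(E, ⊤))) = _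
      rw [h3, Iso.hom_inv_id_assoc]
      rfl)
    obtain ⟨σ, κ, _, _, g, hg, ⟨e⟩⟩ := exists_quadratic K Γ(E, ⊤)
    obtain ⟨q, hq, hBq⟩ := hD (|i| + |j| + Fintype.card σ + 2)
    have ha1 := neg_abs_le i
    have ha2 := le_abs_self j
    have ha3 := abs_nonneg i
    obtain ⟨c, hc⟩ := Int.eq_ofNat_of_zero_le (show 0 ≤ q - j by omega)
    obtain ⟨r, hr⟩ : ∃ r : ℕ, Fintype.card σ + r = n + d + c :=
      ⟨n + d + c - Fintype.card σ, by omega⟩
    let iso2 : vScheme (addV g (Fin r)) ≅ Over.mk (π ≫ f) :=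
      ((isoO (addIso g (Fin r))).symm.trans (isoO e).symm).trans iso1.symm
    let ρ : vScheme (addV g (Fin r)) ⟶ Over.mk f := iso2.hom ≫ π'
    have hi : IsIso iso2.hom.left := inferInstanceAs (IsIso ((Over.forget _).map iso2.hom))
    have hρ : IsAffineBundle n ρ.left := isAffineBundle_iso iso2.hom.left π hπ
    have hZ : IsSm (n + d) (vScheme (addV g (Fin r))) := sm_iso iso2.symm hEs
    have hcard : Fintype.card (σ ⊕ Fin r) = n + d + c := by
      rw [Fintype.card_sum, Fintype.card_fin, hr]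
    have h1 := h (σ ⊕ Fin r) (κ ⊕ Fin r) (addV g (Fin r)) c (n + d) (by omega) hcard
      (totalDegree_addV g _ hg) hZ ⟨_, hCX, n, ρ, hρ⟩ (i + 2 * c - 1) q (by omega) hq (by omega)
    have h2 := (inj_cubic hR (addV g (Fin r)) hcard hZ (i := i) (j := j) rfl (by omega)
      (by omega)).1 h1
    exact inj_of_bundle hR ρ hX hρ h2

end

end Pool.Agent.R597.RI
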