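import Pool.Agent.R597.RD.NF

/-!
# Regulators and their kernels: formal properties
-/

set_option autoImplicit false

open CategoryTheory CategoryTheory.Limits AlgebraicGeometry MvPolynomial
open Pool.Agent.R904.CU Pool.Agent.R597.RD

namespace Pool.Agent.R597.RI

/-- two cohomology theories `M` (motivic cohomology of `X`), `H` (absolute Hodge cohomology of the
complex fibre of `X`) and a map `reg : M → H` (the regulator) -/
structure Reg (K : Type) [CommRing K] where
  /-- motivic cohomology -/
  M : Coh K
  /-- absolute Hodge cohomology -/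
  H : Coh K
  /-- the regulator -/
  reg : ∀ X i j, M.G X i j →+ H.G X i j

section

variable {K : Type} [CommRing K]

/-- homotopy invariance: for affine bundles `π : E → X` over smooth `X` the pull-backs are bijective -/
def HasBundles (T : Coh K) : Prop :=
  ∀ (n d : ℕ) {X E : Sch K} (π : E ⟶ X), IsSm d X → IsAffineBundle n π.left → ∀ i j : ℤ,
    Function.Bijective (T.pull π i j)

/-- There is a map `push : C → D` such that the sequence `A → B → C → D → E` with the maps `f`, `res`,
`push`, `g` is exact. -/
def Fits {A B C D E : Type} [AddCommGroup A] [AddCommGroup B] [AddCommGroup C] [AddCommGroup D]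
    [AddCommGroup E] (f : A →+ B) (res : B →+ C) (g : D →+ E) : Prop :=
  ∃ push : C →+ D, Function.Exact f res ∧ Function.Exact res push ∧ Function.Exact push g

/-- The maps `a : M → M'` and `b : H → H'` are compatible with `r : M → H` and `r' : M' → H'`. -/
def Compat {M H M' H' : Type} [AddCommGroup M] [AddCommGroup H] [AddCommGroup M'] [AddCommGroup H']
    (r : M →+ H) (r' : M' →+ H') (a : M →+ M') (b : H →+ H') : Prop := r'.comp a = b.comp r

/-- The residue `res` fits in an exact Gysin sequence
`H^p(X, q) → H^p(U, q) → H^i(Z, j) → H^{p+1}(X, q) → H^{p+1}(U, q)`. -/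
def IsResidue (T : Coh K) {X Z U : Sch K} (u : U ⟶ X) {i j p q : ℤ}
    (res : T.G U p q →+ T.G Z i j) : Prop := Fits (T.pull u p q) res (T.pull u (p + 1) q)

/-- There are Gysin sequences in `M` and in `H` for all smooth closed subschemes `Z` of pure codimension
`c` in smooth schemes `X`, with complement `U`; the regulators are compatible with the residues. -/
def HasGysin (R : Reg K) : Prop :=
  ∀ (c d : ℕ) {X Z U : Sch K} (z : Z ⟶ X) (u : U ⟶ X), IsSm (d + c) X → IsSm d Z →
    IsPair z u → ∀ i j p q : ℤ, p = i + 2 * c - 1 → q = j + c →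
      ∃ (resM : R.M.G U p q →+ R.M.G Z i j) (resH : R.H.G U p q →+ R.H.G Z i j),
        IsResidue R.M u resM ∧ IsResidue R.H u resH ∧
          Compat (R.reg U p q) (R.reg Z i j) resM resH

/-- The cohomology of the point vanishes in degrees `≥ 2`. -/
def PointVanishes (T : Coh K) : Prop :=
  ∀ i j : ℤ, 2 ≤ i → Subsingleton (T.G (Over.mk (𝟙 (Spec (.of K)))) i j)

/-- The properties of the regulator which are used. -/
structure IsReg (R : Reg K) : Prop where
  functM : R.M.IsFunctorial
  functH : R.H.IsFunctorial
  nat : ∀ {X Y : Sch K} (f : Y ⟶ X) (i j : ℤ),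
    Compat (R.reg X i j) (R.reg Y i j) (R.M.pull f i j) (R.H.pull f i j)
  bundleM : HasBundles R.M
  bundleH : HasBundles R.H
  gysin : HasGysin R
  pointM : PointVanishes R.M
  pointH : PointVanishes R.H

namespace Reg

variable (R : Reg K)

/-- the regulator of `X` is injective in the bidegree `(i, j)` -/
def Inj (X : Sch K) (i j : ℤ) : Prop := Function.Injective (R.reg X i j)

/-- the regulators of all smooth separated `K`-schemes of finite type of pure dimension are injective in
the bidegree `(i, j)` -/
def AllInj (i j : ℤ) : Prop := ∀ (d : ℕ) (X : Sch K), IsSm d X → R.Inj X i j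

/-- The regulators are injective in the bidegree `(i, j)` for the smooth affine cubic hypersurfaces
`∑ yₖ gₖ(x) = 1`, where the `gₖ` are polynomials of degree at most two in `d + c` variables such that
the closed subscheme `V(g)` of the affine space is smooth of pure codimension `c ≥ 1`. -/
def CubicInj (i j : ℤ) : Prop :=
  ∀ (σ κ : Type) [Fintype σ] [Fintype κ] (g : κ → MvPolynomial σ K) (c d : ℕ), 1 ≤ c →
    Fintype.card σ = d + c → (∀ k, (g k).totalDegree ≤ 2) → IsSm d (vScheme g) →
    R.Inj (Over.mk (hyp (bigPoly g))) i j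

/-- injectivity for all `X` in the class `C` and all bidegrees `(i, j)` with `2j - i = m` -/
def InjFor (C : Sch K → Prop) (m : ℤ) : Prop :=
  ∀ X : Sch K, C X → ∀ i j : ℤ, 2 * j - i = m → R.Inj X i j

/-- injectivity for the smooth affine cubic hypersurfaces `∑ yₖ gₖ(x) = 1`, where the `gₖ` are
polynomials of degree at most two in `d + c` variables such that `V(g)` is smooth of pure codimension
`c ≥ 1` and an affine bundle over a member of the class `C`, in the bidegrees `(p, q)` with `p ≥ 2`,
`q ∈ D` and `2q - p = m` -/
def CubicInjFor (C : Sch K → Prop) (D : Set ℤ) (m : ℤ) : Prop :=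
  ∀ (σ κ : Type) [Fintype σ] [Fintype κ] (g : κ → MvPolynomial σ K) (c d : ℕ), 1 ≤ c →
    Fintype.card σ = d + c → (∀ k, (g k).totalDegree ≤ 2) → IsSm d (vScheme g) →
    (∃ X : Sch K, C X ∧ ∃ (n : ℕ) (π : vScheme g ⟶ X), IsAffineBundle n π.left) →
    ∀ p q : ℤ, 2 ≤ p → q ∈ D → 2 * q - p = m → R.Inj (Over.mk (hyp (bigPoly g))) p q

end Reg

end

end Pool.Agent.R597.RI
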