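import Pool.Agent.R597.RI.Main

/-!
# The reductions
-/

set_option autoImplicit false

open CategoryTheory CategoryTheory.Limits AlgebraicGeometry MvPolynomial
open Pool.Agent.R904.CU Pool.Agent.R597.RD

namespace Pool.Agent.R597.RI

section

variable {K : Type} [Field K]

variable {R : Reg K} (hR : IsReg R) (hJ : Jouanolou K)

include hR hJ

theorem shift_ab {i j a b : ℤ} (h1 : b ≤ a) (h2 : a < 2 * b) (h : R.AllInj (i + a) (j + b)) :
    R.AllInj i j := by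
  obtain ⟨s, hs⟩ := Int.eq_ofNat_of_zero_le (show 0 ≤ 2 * b - a - 1 by omega)
  obtain ⟨c, hc⟩ := Int.eq_ofNat_of_zero_le (show 0 ≤ a - b + 1 by omega)
  refine all_shift hR hJ s c (by omega) ?_
  have e1 : i + s + 2 * c - 1 = i + a := by omega
  have e2 : j + s + c = j + b := by omega
  rw [e1, e2]
  exact h

theorem q1_of_all {T : Set (ℤ × ℤ)}
    (hT : ∀ B : ℤ, ∃ p ∈ T, B ≤ p.1 - p.2 ∧ B ≤ 2 * p.2 - p.1)
    (h : ∀ p ∈ T, R.AllInj p.1 p.2) : ∀ i j : ℤ, R.AllInj i j := by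
  intro i j
  obtain ⟨p, hp, h1, h2⟩ := hT (|i - j| + |2 * j - i| + 1)
  have h3 := le_abs_self (i - j)
  have h4 := le_abs_self (2 * j - i)
  have h5 := abs_nonneg (i - j)
  have h6 := abs_nonneg (2 * j - i)
  refine shift_ab hR hJ (a := p.1 - i) (b := p.2 - j) (by omega) (by omega) ?_
  have e1 : i + (p.1 - i) = p.1 := by omega
  have e2 : j + (p.2 - j) = p.2 := by omega
  rw [e1, e2]
  exact h p hp

theorem q1_of_cubic {T : Set (ℤ × ℤ)}
    (hT : ∀ B : ℤ, ∃ p ∈ T, B ≤ 2 * p.1 - 3 * p.2 ∧ B ≤ 2 * p.2 - p.1)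
    (h : ∀ p ∈ T, R.CubicInj p.1 p.2) : ∀ i j : ℤ, R.AllInj i j := by
  intro i j
  refine all_of_cubic hR hJ fun N => ?_
  obtain ⟨p, hp, h1, h2⟩ := hT (|2 * i - 3 * j| + |2 * j - i| + N + 1)
  have h3 := le_abs_self (2 * i - 3 * j)
  have h4 := le_abs_self (2 * j - i)
  have h5 := abs_nonneg (2 * i - 3 * j)
  have h6 := abs_nonneg (2 * j - i)
  obtain ⟨s, hs⟩ := Int.eq_ofNat_of_zero_le (show 0 ≤ 2 * (p.2 - j) - (p.1 - i) - 1 by omega)
  obtain ⟨c, hc⟩ := Int.eq_ofNat_of_zero_le (show 0 ≤ (p.1 - i) - (p.2 - j) + 1 by omega)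
  refine ⟨s, c, by omega, ?_⟩
  have e1 : i + s + 2 * c - 1 = p.1 := by omega
  have e2 : j + s + c = p.2 := by omega
  rw [e1, e2]
  exact h p hp

theorem diagonal (m : ℤ) {D : Set ℤ} (hD : ∀ B : ℤ, ∃ q ∈ D, B ≤ q)
    (h : ∀ q ∈ D, R.CubicInj (2 * q - m - 1) q) (j : ℤ) : R.AllInj (2 * j - m) j := by
  refine all_of_cubic hR hJ fun N => ?_
  obtain ⟨q, hq, h1⟩ := hD (j + N)
  obtain ⟨c, hc⟩ := Int.eq_ofNat_of_zero_le (show 0 ≤ q - j by omega)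
  refine ⟨0, c, by omega, ?_⟩
  have e1 : 2 * j - m + ((0 : ℕ) : ℤ) + 2 * c - 1 = 2 * q - m - 1 := by
    push_cast
    omega
  have e2 : j + ((0 : ℕ) : ℤ) + c = q := by
    push_cast
    omega
  rw [e1, e2]
  exact h q hq

omit hR hJ in
theorem cubic_of_all {i j : ℤ} (h : R.AllInj i j) : R.CubicInj i j := by
  intro σ κ _ _ g c d _ _ _ _
  obtain ⟨e, he⟩ := sm_hyp g
  exact h e _ he

end

end Pool.Agent.R597.RI
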